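import Pool.Agent.H525.ISO.Stm

/-! Proof of `S_COORD`: coordinates in an integral basis are bounded by the embeddings. -/

set_option autoImplicit false

namespace Pool.Agent.H619.ISO

open Finset NumberField Filter

open scoped Classical

/-- the coordinates of an element are traces -/
theorem coord_trace (K : Type) [Field K] [NumberField K] (ι : Type) [Fintype ι]
    (b : Module.Basis ι ℤ (𝓞 K)) : ∃ c : ι → K, ∀ (x : ι → ℤ) (i : ι),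
      ((x i : ℤ) : ℚ) = Algebra.trace ℚ K (c i * ((∑ j, x j • b j : 𝓞 K) : K)) := by
  let b' : Module.Basis ι ℚ K := b.localizationLocalization ℚ (nonZeroDivisors ℤ) K
  have hb' : ∀ j, b' j = (b j : K) := fun j =>
    Module.Basis.localizationLocalization_apply ℚ (nonZeroDivisors ℤ) K b j
  let T := Algebra.traceForm ℚ K
  have hT : T.Nondegenerate := traceForm_nondegenerate ℚ K
  refine ⟨fun i => T.dualBasis hT b' i, fun x i => ?_⟩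
  have h1 : ((∑ j, x j • b j : 𝓞 K) : K) = ∑ j, ((x j : ℤ) : ℚ) • b' j := by
    change algebraMap (𝓞 K) K (∑ j, x j • b j) = _
    rw [map_sum]
    refine Finset.sum_congr rfl fun j _ => ?_
    rw [hb', map_zsmul, Int.cast_smul_eq_zsmul]
  have h2 : Algebra.trace ℚ K (T.dualBasis hT b' i * ((∑ j, x j • b j : 𝓞 K) : K)) =
      T (T.dualBasis hT b' i) ((∑ j, x j • b j : 𝓞 K) : K) := rfl
  rw [h2, h1, map_sum]
  have h3 : ∀ j, T (T.dualBasis hT b' i) (((x j : ℤ) : ℚ) • b' j) =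
      if j = i then ((x j : ℤ) : ℚ) else 0 := by
    intro j
    rw [map_smul, LinearMap.BilinForm.apply_dualBasis_left, smul_eq_mul, mul_ite, mul_one, mul_zero]
  rw [Finset.sum_congr rfl fun j _ => h3 j, Finset.sum_ite_eq' Finset.univ i, if_pos (mem_univ i)]

theorem t_COORD : Pool.Agent.H525.ISO.S_COORD := by
  intro K _ _ ι _ b
  obtain ⟨c, hc⟩ := coord_trace K ι b
  obtain ⟨σ₀⟩ : Nonempty (K →ₐ[ℚ] ℂ) := by
    obtain ⟨f⟩ : Nonempty (K →+* ℂ) := inferInstance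
    exact ⟨f.toRatAlgHom⟩
  have hS : 0 ≤ ∑ i, ∑ σ : K →ₐ[ℚ] ℂ, ‖σ (c i)‖ :=
    Finset.sum_nonneg fun i _ => Finset.sum_nonneg fun σ _ => norm_nonneg _
  refine ⟨1 + ∑ i, ∑ σ : K →ₐ[ℚ] ℂ, ‖σ (c i)‖, by linarith, fun x B hB i => ?_⟩
  have hB0 : 0 ≤ B := (norm_nonneg _).trans (hB σ₀)
  have h1 := trace_eq_sum_embeddings (K := ℚ) ℂ (x := c i * ((∑ j, x j • b j : 𝓞 K) : K))
  rw [← hc x i] at h1
  have h2 : |(x i : ℝ)| = ‖∑ σ : K →ₐ[ℚ] ℂ, σ (c i * ((∑ j, x j • b j : 𝓞 K) : K))‖ := by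
    rw [← h1]
    have h3 : algebraMap ℚ ℂ ((x i : ℤ) : ℚ) = (((x i : ℤ) : ℝ) : ℂ) := by
      rw [eq_ratCast]
      push_cast
      rfl
    rw [h3, Complex.norm_real, Real.norm_eq_abs]
  rw [h2]
  calc ‖∑ σ : K →ₐ[ℚ] ℂ, σ (c i * ((∑ j, x j • b j : 𝓞 K) : K))‖
      ≤ ∑ σ : K →ₐ[ℚ] ℂ, ‖σ (c i * ((∑ j, x j • b j : 𝓞 K) : K))‖ := norm_sum_le _ _
    _ ≤ ∑ σ : K →ₐ[ℚ] ℂ, ‖σ (c i)‖ * B := by
        refine Finset.sum_le_sum fun σ _ => ?_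
        rw [map_mul, norm_mul]
        exact mul_le_mul_of_nonneg_left (hB σ) (norm_nonneg _)
    _ = (∑ σ : K →ₐ[ℚ] ℂ, ‖σ (c i)‖) * B := by rw [Finset.sum_mul]
    _ ≤ (1 + ∑ i, ∑ σ : K →ₐ[ℚ] ℂ, ‖σ (c i)‖) * B := by
        refine mul_le_mul_of_nonneg_right ?_ hB0
        have h4 : ∑ σ : K →ₐ[ℚ] ℂ, ‖σ (c i)‖ ≤ ∑ i, ∑ σ : K →ₐ[ℚ] ℂ, ‖σ (c i)‖ :=
          Finset.single_le_sum (f := fun i => ∑ σ : K →ₐ[ℚ] ℂ, ‖σ (c i)‖)
            (fun i _ => Finset.sum_nonneg fun σ _ => norm_nonneg _) (mem_univ i)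
        linarith

end Pool.Agent.H619.ISO
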